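import Pool.Agent.U295.AP.Main

set_option autoImplicit false

open Finset

namespace Pool.Agent.Results.MP_6bff71_co.BeatRandom

/-- `S` is a `k`-term arithmetic progression `{a, a + d, ..., a + (k - 1) d}` contained in `{1, ..., n}`,
with first term `a ≥ 1` and difference `d ≥ 1`. -/
def IsAP (k n : ℕ) (S : Finset ℕ) : Prop :=
  S ⊆ Icc 1 n ∧ ∃ a d : ℕ, 1 ≤ a ∧ 1 ≤ d ∧ S = (range k).image fun i => a + i * d

/-- `M_k(χ)`: the number of sets `S ⊆ {1, ..., n}` which are `k`-term arithmetic progressions and on which the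
colouring `χ` of `{1, ..., n}` is constant. -/
noncomputable def M (k n r : ℕ) (χ : Icc 1 n → Fin r) : ℕ :=
  Set.ncard {S : Finset ℕ | IsAP k n S ∧ ∃ c : Fin r, ∀ x : Icc 1 n, (x : ℕ) ∈ S → χ x = c}

open Pool.Agent.U295.AP in
theorem M_eq {B : ℕ} (hB : 1 ≤ B) (n r : ℕ) (χ : ℕ → Fin r) :
    M (B + 1) n r (fun x => χ x) = mono B n χ := by
  classical
  unfold M mono
  have h : {S : Finset ℕ | IsAP (B + 1) n S ∧ ∃ c : Fin r, ∀ x : Icc 1 n, (x : ℕ) ∈ S → χ x = c} =
      (((prs B n).filter fun q => ∀ i ≤ B, χ (q.1 + i * q.2) = χ q.1).image (apSet B) : Finset (Finset ℕ)) := by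
    ext S
    rw [Set.mem_ofPred_eq, mem_coe, mem_image]
    constructor
    · rintro ⟨⟨h1, a, d, ha, hd, rfl⟩, c, hc⟩
      have h2 : ∀ i ≤ B, a + i * d ∈ (range (B + 1)).image fun i => a + i * d := fun i hi =>
        mem_image.2 ⟨i, by rw [mem_range]; omega, rfl⟩
      refine ⟨(a, d), ?_, rfl⟩
      rw [mem_filter, mem_prs hB]
      refine ⟨⟨ha, hd, ?_⟩, fun i hi => ?_⟩
      · exact (mem_Icc.1 (h1 (h2 B le_rfl))).2
      · have e1 := hc ⟨_, h1 (h2 i hi)⟩ (h2 i hi)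
        have e2 := hc ⟨_, h1 (h2 0 (Nat.zero_le _))⟩ (h2 0 (Nat.zero_le _))
        simp only [zero_mul, add_zero] at e1 e2
        rw [e1, e2]
    · rintro ⟨⟨a, d⟩, hq, rfl⟩
      rw [mem_filter, mem_prs hB] at hq
      obtain ⟨⟨ha, hd, han⟩, hc⟩ := hq
      simp only [] at ha hd han hc
      refine ⟨⟨?_, a, d, ha, hd, rfl⟩, χ a, ?_⟩
      · intro x hx
        unfold apSet at hx
        rw [mem_image] at hx
        obtain ⟨i, hi, rfl⟩ := hx
        rw [mem_range] at hi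
        have := Nat.mul_le_mul_right d (show i ≤ B by omega)
        rw [mem_Icc]
        simp only []
        omega
      · rintro ⟨x, hx'⟩ hx
        simp only [] at hx ⊢
        unfold apSet at hx
        rw [mem_image] at hx
        obtain ⟨i, hi, rfl⟩ := hx
        rw [mem_range] at hi
        exact hc i (by omega)
  rw [h, Set.ncard_coe_finset, card_image_of_injOn]
  intro q _ q' _ hqq
  exact apSet_inj hB hqq

/-- **Random colourings can be beaten for all `k ≥ 3` and `r ≥ 2`**: there are a constant `δ` strictly below the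
random rate `1 / (2 (k - 1) r ^ (k - 1))` and, for every `n`, an `r`-colouring of `{1, ..., n}` with
`δ n ^ 2 + O(n)` monochromatic `k`-term arithmetic progressions. -/
theorem result (k : ℕ) (hk : 3 ≤ k) (r : ℕ) (hr : 2 ≤ r) :
    ∃ δ : ℝ, δ < 1 / (2 * ((k : ℝ) - 1) * (r : ℝ) ^ (k - 1)) ∧
      ∃ χ : ∀ n : ℕ, Icc 1 n → Fin r, ∃ C : ℝ, ∀ n : ℕ, |(M k n r (χ n) : ℝ) - δ * (n : ℝ) ^ 2| ≤ C * n := by
  obtain ⟨B, rfl⟩ : ∃ B, k = B + 1 := ⟨k - 1, by omega⟩
  obtain ⟨δ, h1, χ, C, h2⟩ := Pool.Agent.U295.AP.main_pairs (show 2 ≤ B by omega) hr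
  refine ⟨δ, ?_, fun n x => χ n x, C, fun n => ?_⟩
  · push_cast
    rw [add_sub_cancel_right]
    exact h1
  · rw [M_eq (by omega) n r (χ n)]
    exact h2 n

end Pool.Agent.Results.MP_6bff71_co.BeatRandom
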